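import Mathlib
import Pool.Agent.helper94.Rainbow

set_option autoImplicit false

/-!
# Colourings in which every edge is owned by one of its endpoints, or has the background colour
-/

namespace Pool.Agent.helper64.RC

open Pool.Agent.helper94.Rainbow

/-- if all edges of a rainbow cycle are owned by an endpoint, ownership goes in one direction -/
theorem directed {V : Type} {c : Sym2 V → Option V} {n : ℕ} {f : ℕ → V} (hf : IsRC c n f)
    (hn : 3 ≤ n)
    (how : ∀ k, c s(f k, f (k + 1)) = some (f k) ∨ c s(f k, f (k + 1)) = some (f (k + 1))) :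
    (∀ k, c s(f k, f (k + 1)) = some (f k)) ∨
      (∃ a, ∀ k, c s(f (a + k), f (a + k + 1)) = some (f (a + k + 1))) := by
  by_cases h : ∃ a, c s(f a, f (a + 1)) = some (f (a + 1))
  · right
    obtain ⟨a, ha⟩ := h
    refine ⟨a, fun k => ?_⟩
    induction k with
    | zero => exact ha
    | succ k ih =>
      refine (how (a + (k + 1))).resolve_left fun h2 => ?_
      refine hf.col_ne (i := a + k) (j := a + k + 1) (by omega) (by omega) ?_
      rw [ih]
      exact h2.symm
  · left
    push Not at h
    exact fun k => (how k).resolve_right (h k)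

/-- a rainbow cycle of even length has no background edge, if the background edges are the ones
with even sum of weights -/
theorem no_bad {V C : Type} {c : Sym2 V → Option C} {n : ℕ} {f : ℕ → V} (hf : IsRC c n f)
    (hn : n % 2 = 0) (hn3 : 3 ≤ n) (p : V → ℕ)
    (h1 : ∀ x y, c s(x, y) = none → (p x + p y) % 2 = 0)
    (h2 : ∀ x y, c s(x, y) ≠ none → (p x + p y) % 2 = 1) (j : ℕ) :
    c s(f j, f (j + 1)) ≠ none := by
  intro hj
  have hg := hf.rotate (by omega) (j + 1)
  set g : ℕ → V := fun k => f (k + (j + 1)) with hgdef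
  have hlast : c s(g (n - 1), g (n - 1 + 1)) = none := by
    show c s(f (n - 1 + (j + 1)), f (n - 1 + 1 + (j + 1))) = none
    rw [show n - 1 + (j + 1) = j + n by omega, show n - 1 + 1 + (j + 1) = j + 1 + n by omega,
      hf.per, hf.per]
    exact hj
  have hlast' : c s(g (n - 1), g 0) = none := by
    have : g (n - 1 + 1) = g 0 := by
      rw [show n - 1 + 1 = 0 + n by omega, hg.per]
    rw [← this]
    exact hlast
  have key : ∀ k, k ≤ n - 1 → (p (g 0) + p (g k)) % 2 = k % 2 := by
    intro k
    induction k with
    | zero => intro _; omega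
    | succ k ih =>
      intro hk
      have h3 := ih (by omega)
      have h4 : c s(g k, g (k + 1)) ≠ none := by
        intro h5
        exact hg.col_ne (i := k) (j := n - 1) (by omega) (by omega) (by rw [h5, hlast])
      have h6 := h2 _ _ h4
      omega
  have h7 := key (n - 1) le_rfl
  have h8 := h1 _ _ hlast'
  omega

/-! ### `n` even and `m` odd -/

/-- colour of a pair: the smaller endpoint if the sum is odd -/
def colA {m : ℕ} (x y : Fin m) : Option (Fin m) :=
  if (x.val + y.val) % 2 = 1 then some (min x y) else none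

theorem colA_comm {m : ℕ} (x y : Fin m) : colA x y = colA y x := by
  unfold colA
  rw [Nat.add_comm, min_comm]

/-- the colouring `colA` -/
def cA (m : ℕ) : Sym2 (Fin m) → Option (Fin m) :=
  Sym2.lift ⟨fun x y => colA x y, fun x y => colA_comm x y⟩

theorem cA_mk {m : ℕ} (x y : Fin m) : cA m s(x, y) = colA x y := rfl

/-- the cycle `0, 1, …, m - 1` -/
def walk {m : ℕ} (hm : 0 < m) (k : ℕ) : Fin m := ⟨k % m, Nat.mod_lt _ hm⟩

theorem walk_small {m : ℕ} (hm : 0 < m) {k : ℕ} (hk : k < m) : walk hm k = ⟨k, hk⟩ := by
  unfold walk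
  exact Fin.ext (Nat.mod_eq_of_lt hk)

theorem walk_per {m : ℕ} (hm : 0 < m) (k : ℕ) : walk hm (k + m) = walk hm k := by
  unfold walk
  simp only [Nat.add_mod_right]

theorem walk_inj {m : ℕ} (hm : 0 < m) (i j : ℕ) (hi : i < m) (hj : j < m)
    (hij : walk hm i = walk hm j) : i = j := by
  rw [walk_small hm hi, walk_small hm hj] at hij
  simpa using hij

/-- a colouring with all the edges `(k, k + 1)` of different colours has a rainbow `m`-cycle -/
theorem hasRainbow_of_walk {m : ℕ} {C : Type} (h3 : 3 ≤ m) (c : Sym2 (Fin m) → C)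
    (h : ∀ i j, i < j → j < m →
      c s(walk (by omega) i, walk (by omega) (i + 1)) ≠
        c s(walk (by omega) j, walk (by omega) (j + 1))) :
    HasRainbowCycle c m := by
  refine IsRC.hasRainbowCycle (f := walk (by omega)) h3 ⟨walk_per _, walk_inj _, ?_⟩
  intro i j hi hj hij
  rcases lt_trichotomy i j with hlt | heq | hgt
  · exact absurd hij (h i j hlt hj)
  · exact heq
  · exact absurd hij.symm (h j i hgt hi)

theorem cA_has {m : ℕ} (h3 : 3 ≤ m) (hm : m % 2 = 1) : HasRainbowCycle (cA m) m := by
  apply hasRainbow_of_walk h3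
  intro i j hij hj
  have hm0 : 0 < m := by omega
  rw [walk_small hm0 (show i < m by omega), walk_small hm0 (show i + 1 < m by omega),
    walk_small hm0 hj, cA_mk, cA_mk]
  have e1 : colA (⟨i, by omega⟩ : Fin m) ⟨i + 1, by omega⟩ = some ⟨i, by omega⟩ := by
    unfold colA
    rw [if_pos (by dsimp only; omega)]
    congr 1
    rw [min_eq_left]
    show i ≤ i + 1
    omega
  rw [e1]
  rcases Nat.lt_or_ge (j + 1) m with h | h
  · rw [walk_small hm0 h]
    have e2 : colA (⟨j, by omega⟩ : Fin m) ⟨j + 1, by omega⟩ = some ⟨j, by omega⟩ := by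
      unfold colA
      rw [if_pos (by dsimp only; omega)]
      congr 1
      rw [min_eq_left]
      show j ≤ j + 1
      omega
    rw [e2]
    intro he
    simp only [Option.some.injEq, Fin.mk.injEq] at he
    omega
  · have hjm : j + 1 = 0 + m := by omega
    rw [hjm, walk_per, walk_small hm0 hm0]
    unfold colA
    rw [if_neg (by dsimp only; omega)]
    simp

theorem cA_not {m n : ℕ} (hn : n % 2 = 0) (h3 : 3 ≤ n) : ¬ HasRainbowCycle (cA m) n := by
  intro hrc
  obtain ⟨f, hf⟩ := hrc.exists_isRC (by omega)
  have hbad := no_bad hf hn h3 (fun x => x.val)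
    (fun x y h => by
      rw [cA_mk] at h
      unfold colA at h
      split_ifs at h with h1
      omega)
    (fun x y h => by
      rw [cA_mk] at h
      unfold colA at h
      split_ifs at h with h1
      · exact h1
      · exact absurd rfl h)
  have hodd : ∀ k, ((f k).val + (f (k + 1)).val) % 2 = 1 := by
    intro k
    by_contra h
    apply hbad k
    rw [cA_mk]
    unfold colA
    rw [if_neg h]
  have hmin : ∀ k, cA m s(f k, f (k + 1)) = some (min (f k) (f (k + 1))) := by
    intro k
    rw [cA_mk]
    unfold colA
    rw [if_pos (hodd k)]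
  have how : ∀ k, cA m s(f k, f (k + 1)) = some (f k) ∨
      cA m s(f k, f (k + 1)) = some (f (k + 1)) := by
    intro k
    rw [hmin k]
    rcases le_total (f k) (f (k + 1)) with h | h
    · left; rw [min_eq_left h]
    · right; rw [min_eq_right h]
  rcases directed hf h3 how with h | ⟨a, h⟩
  · have hlt : ∀ k, (f k).val < (f (k + 1)).val := by
      intro k
      have h1 := h k
      rw [hmin k] at h1
      have h2 : min (f k) (f (k + 1)) = f k := Option.some.inj h1
      have h3' : f k ≤ f (k + 1) := by rw [← h2]; exact min_le_right _ _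
      have h4 := hodd k
      have h5 : (f k).val ≤ (f (k + 1)).val := h3'
      omega
    have hmono : StrictMono (fun k => (f k).val) := strictMono_nat_of_lt_succ hlt
    have h6 := hmono (show 0 < 0 + n by omega)
    simp only [hf.per] at h6
    omega
  · have hlt : ∀ k, (f (a + (k + 1))).val < (f (a + k)).val := by
      intro k
      have h1 := h k
      rw [hmin (a + k)] at h1
      have h2 : min (f (a + k)) (f (a + k + 1)) = f (a + k + 1) := Option.some.inj h1
      have h3' : f (a + k + 1) ≤ f (a + k) := by rw [← h2]; exact min_le_left _ _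
      have h4 := hodd (a + k)
      have h5 : (f (a + k + 1)).val ≤ (f (a + k)).val := h3'
      rw [show a + (k + 1) = a + k + 1 by ring]
      omega
    have hanti : StrictAnti (fun k => (f (a + k)).val) := strictAnti_nat_of_succ_lt hlt
    have h6 := hanti (show 0 < n by omega)
    simp only [hf.per, Nat.add_zero] at h6
    omega

/-- for even `n` no odd `m` implies `n` -/
theorem not_implies_of_odd {m n : ℕ} (hm3 : 3 ≤ m) (hm : m % 2 = 1) (h3 : 3 ≤ n)
    (hn : n % 2 = 0) : ¬ Implies m n := fun h =>
  cA_not hn h3 (h (Fin m) (Option (Fin m)) (cA m) (cA_has hm3 hm))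

/-! ### `n = 2 mod 4` and `m = 0 mod 4` -/

/-- colour of a pair: the endpoint `x` if the other endpoint is `x + 1` modulo 4 -/
def colB {m : ℕ} (x y : Fin m) : Option (Fin m) :=
  if (x.val + 1) % 4 = y.val % 4 then some x
  else if (y.val + 1) % 4 = x.val % 4 then some y else none

theorem colB_comm {m : ℕ} (x y : Fin m) : colB x y = colB y x := by
  unfold colB
  by_cases h1 : (x.val + 1) % 4 = y.val % 4
  · have h2 : ¬ (y.val + 1) % 4 = x.val % 4 := by omega
    rw [if_pos h1, if_neg h2, if_pos h1]
  · rw [if_neg h1]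
    by_cases h2 : (y.val + 1) % 4 = x.val % 4
    · rw [if_pos h2, if_pos h2]
    · rw [if_neg h2, if_neg h2, if_neg h1]

/-- the colouring `colB` -/
def cB (m : ℕ) : Sym2 (Fin m) → Option (Fin m) :=
  Sym2.lift ⟨fun x y => colB x y, fun x y => colB_comm x y⟩

theorem cB_mk {m : ℕ} (x y : Fin m) : cB m s(x, y) = colB x y := rfl

theorem cB_has {m : ℕ} (h3 : 3 ≤ m) (hm : m % 4 = 0) : HasRainbowCycle (cB m) m := by
  apply hasRainbow_of_walk h3
  intro i j hij hj
  have hm0 : 0 < m := by omega
  have e : ∀ k (hk : k < m), cB m s(walk hm0 k, walk hm0 (k + 1)) = some ⟨k, hk⟩ := by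
    intro k hk
    rw [cB_mk, walk_small hm0 hk]
    unfold colB
    rw [if_pos]
    show (k + 1) % 4 = (k + 1) % m % 4
    rw [Nat.mod_mod_of_dvd _ (Nat.dvd_of_mod_eq_zero hm)]
  rw [e i (by omega), e j hj]
  intro he
  simp only [Option.some.injEq, Fin.mk.injEq] at he
  omega

theorem cB_not {m n : ℕ} (hn : n % 4 = 2) (h3 : 3 ≤ n) : ¬ HasRainbowCycle (cB m) n := by
  intro hrc
  obtain ⟨f, hf⟩ := hrc.exists_isRC (by omega)
  have hbad := no_bad hf (by omega) h3 (fun x => x.val)
    (fun x y h => by
      rw [cB_mk] at h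
      unfold colB at h
      split_ifs at h with h1 h2
      omega)
    (fun x y h => by
      rw [cB_mk] at h
      unfold colB at h
      split_ifs at h with h1 h2
      · omega
      · omega
      · exact absurd rfl h)
  have how : ∀ k, cB m s(f k, f (k + 1)) = some (f k) ∨
      cB m s(f k, f (k + 1)) = some (f (k + 1)) := by
    intro k
    have h := hbad k
    rw [cB_mk] at h ⊢
    unfold colB at h ⊢
    split_ifs at h ⊢ with h1 h2
    · left; rfl
    · right; rfl
    · exact absurd rfl h
  have hne : ∀ k, f k ≠ f (k + 1) := fun k => hf.ne (by omega) (by omega)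
  rcases directed hf h3 how with h | ⟨a, h⟩
  · have hst : ∀ k, ((f k).val + 1) % 4 = (f (k + 1)).val % 4 := by
      intro k
      have h1 := h k
      rw [cB_mk] at h1
      unfold colB at h1
      split_ifs at h1 with h2 h3
      · exact h2
      · exact absurd (Option.some.inj h1).symm (hne k)
    have key : ∀ k, (f k).val % 4 = ((f 0).val + k) % 4 := by
      intro k
      induction k with
      | zero => simp
      | succ k ih => have := hst k; omega
    have h6 := key (0 + n)
    rw [hf.per] at h6
    omega
  · have hst : ∀ k, ((f (a + (k + 1))).val + 1) % 4 = (f (a + k)).val % 4 := by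
      intro k
      have h1 := h k
      rw [cB_mk] at h1
      unfold colB at h1
      split_ifs at h1 with h2 h3
      · exact absurd (Option.some.inj h1) (hne (a + k))
      · exact h3
    have key : ∀ k, ((f (a + k)).val + k) % 4 = (f a).val % 4 := by
      intro k
      induction k with
      | zero => simp
      | succ k ih => have := hst k; omega
    have h6 := key n
    rw [hf.per] at h6
    omega

/-- for `n = 2 mod 4` no `m = 0 mod 4` implies `n` -/
theorem not_implies_of_mod_four {m n : ℕ} (hm3 : 3 ≤ m) (hm : m % 4 = 0) (h3 : 3 ≤ n)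
    (hn : n % 4 = 2) : ¬ Implies m n := fun h =>
  cB_not hn h3 (h (Fin m) (Option (Fin m)) (cB m) (cB_has hm3 hm))

end Pool.Agent.helper64.RC
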