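import Mathlib
import Pool.Agent.helper94.Rainbow
import Pool.Agent.helper64.RC.Direct

set_option autoImplicit false

/-!
# A colouring with a rainbow 9-cycle and without rainbow 7-cycle
-/

namespace Pool.Agent.helper64.RC.Nine

open Pool.Agent.helper94.Rainbow

/-- the table of the colours -/
def tbl : List (List ℕ) :=
  [[0, 0, 0, 8, 0, 3, 0, 0, 8],
   [0, 0, 1, 0, 0, 0, 0, 3, 0],
   [0, 1, 0, 2, 0, 0, 0, 0, 5],
   [8, 0, 2, 0, 3, 0, 0, 0, 0],
   [0, 0, 0, 3, 0, 4, 0, 3, 0],
   [3, 0, 0, 0, 4, 0, 5, 0, 3],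
   [0, 0, 0, 0, 0, 5, 0, 6, 0],
   [0, 3, 0, 0, 3, 0, 6, 0, 7],
   [8, 0, 5, 0, 0, 3, 0, 7, 0]]

/-- the colour of a pair -/
def t (x y : Fin 9) : ℕ := (tbl.getD x.val []).getD y.val 0

theorem t_comm : ∀ x y : Fin 9, t x y = t y x := by decide

/-- the colouring -/
def cN : Sym2 (Fin 9) → ℕ := Sym2.lift ⟨fun x y => t x y, t_comm⟩

theorem cN_mk (x y : Fin 9) : cN s(x, y) = t x y := rfl

/-- search for a continuation by `k` further vertices -/
def srch (st : Fin 9) : ℕ → Fin 9 → List (Fin 9) → List ℕ → Bool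
  | 0, cur, _, used => !(used.contains (t cur st))
  | k + 1, cur, vis, used => (List.finRange 9).any fun w =>
      !(vis.contains w) && (!(used.contains (t cur w)) && srch st k w (w :: vis) (t cur w :: used))

theorem srch_false : ∀ st : Fin 9, srch st 6 st [st] [] = false := by decide +kernel

theorem srch_true {g : ℕ → Fin 9} (hg : IsRC cN 7 g) : ∀ k j, k + j = 6 →
    ∀ (vis : List (Fin 9)) (used : List ℕ), (∀ x ∈ vis, ∃ i, i ≤ j ∧ x = g i) →
      (∀ x ∈ used, ∃ i, i < j ∧ x = t (g i) (g (i + 1))) →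
      srch (g 0) k (g j) vis used = true := by
  intro k
  induction k with
  | zero =>
    intro j hj vis used _ hu
    have hj6 : j = 6 := by omega
    subst hj6
    simp only [srch, Bool.not_eq_true', ← Bool.not_eq_true, List.contains_iff_mem]
    intro h
    obtain ⟨i, hi, he⟩ := hu _ h
    have h0 : g (6 + 1) = g 0 := hg.per 0
    have h2 : cN s(g i, g (i + 1)) = cN s(g 6, g (6 + 1)) := by
      rw [h0, cN_mk, cN_mk]
      exact he.symm
    exact hg.col_ne hi (by omega) h2
  | succ k ih =>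
    intro j hj vis used hv hu
    simp only [srch, List.any_eq_true, Bool.and_eq_true, Bool.not_eq_true', ← Bool.not_eq_true,
      List.contains_iff_mem]
    refine ⟨g (j + 1), List.mem_finRange _, ?_, ?_, ?_⟩
    · intro h
      obtain ⟨i, hi, he⟩ := hv _ h
      exact hg.ne (i := i) (j := j + 1) (by omega) (by omega) he.symm
    · intro h
      obtain ⟨i, hi, he⟩ := hu _ h
      exact hg.col_ne (i := i) (j := j) (by omega) (by omega) (by rw [cN_mk, cN_mk]; exact he.symm)
    · apply ih (j + 1) (by omega)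
      · intro x hx
        rcases List.mem_cons.mp hx with rfl | hx
        · exact ⟨j + 1, le_rfl, rfl⟩
        · obtain ⟨i, hi, he⟩ := hv x hx
          exact ⟨i, by omega, he⟩
      · intro x hx
        rcases List.mem_cons.mp hx with rfl | hx
        · exact ⟨j, by omega, rfl⟩
        · obtain ⟨i, hi, he⟩ := hu x hx
          exact ⟨i, by omega, he⟩

theorem cN_not : ¬ HasRainbowCycle cN 7 := by
  intro h
  obtain ⟨g, hg⟩ := h.exists_isRC (by norm_num)
  have h1 := srch_true hg 6 0 rfl [g 0] [] (fun x hx => ⟨0, le_rfl, by simpa using hx⟩)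
    (fun x hx => by simp at hx)
  rw [srch_false] at h1
  exact absurd h1 (by simp)

theorem cN_has : HasRainbowCycle cN 9 := by
  apply hasRainbow_of_walk (by norm_num)
  have key : ∀ i j : Fin 9, i < j → t i (i + 1) ≠ t j (j + 1) := by decide
  intro i j hij hj he
  have e : ∀ k (hk : k < 9), cN s(walk (m := 9) (by omega) k, walk (m := 9) (by omega) (k + 1)) =
      t ⟨k, hk⟩ (⟨k, hk⟩ + 1) := by
    intro k hk
    rw [cN_mk, walk_small (by omega) hk]
    rfl
  rw [e i (by omega), e j hj] at he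
  exact key ⟨i, by omega⟩ ⟨j, hj⟩ hij he

/-- `9` does not imply `7` -/
theorem not_implies_nine_seven : ¬ Implies 9 7 := fun h => cN_not (h _ _ cN cN_has)

end Pool.Agent.helper64.RC.Nine
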