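import Mathlib
import Pool.Agent.helper94.Rainbow
import Pool.Agent.helper64.RC.Direct

set_option autoImplicit false

/-!
# The sparse colouring: counting and arithmetic
-/

namespace Pool.Agent.helper64.RC

open Pool.Agent.helper94.Rainbow

/-! ### Counting -/

/-- indicator of the interval from `x` to `y - 1` -/
def ch (x y e : ℕ) : ℕ := if x ≤ e ∧ e < y then 1 else 0

theorem ch_mul (a a' b b' e : ℕ) : ch (max a b) (min a' b') e = ch a a' e * ch b b' e := by
  unfold ch
  by_cases h1 : a ≤ e ∧ e < a' <;> by_cases h2 : b ≤ e ∧ e < b'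
  · rw [if_pos h1, if_pos h2, if_pos ⟨max_le h1.1 h2.1, lt_min h1.2 h2.2⟩]
  · rw [if_pos h1, if_neg h2, if_neg (by omega)]
  · rw [if_neg h1, if_pos h2, if_neg (by omega)]
  · rw [if_neg h1, if_neg h2, if_neg (by omega)]

theorem sum_ch (x y N : ℕ) (h : y ≤ N) : ∑ e ∈ Finset.range N, ch x y e = y - x := by
  unfold ch
  rw [← Finset.card_filter]
  have : (Finset.range N).filter (fun e => x ≤ e ∧ e < y) = Finset.Ico x y := by
    ext e
    simp only [Finset.mem_filter, Finset.mem_range, Finset.mem_Ico]
    omega
  rw [this, Nat.card_Ico]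

theorem ch_le (x y e : ℕ) : ch x y e ≤ 1 := by
  unfold ch
  split_ifs <;> omega

theorem three (U : Finset ℕ) (N a a' b b' c c' : ℕ) (hUN : ∀ e ∈ U, e < N)
    (ha : a' ≤ N) (hb : b' ≤ N) (hc : c' ≤ N)
    (hU : ∀ e, ((if e ∈ U then 1 else 0) + ch a a' e + ch b b' e + ch c c' e) % 2 = 0) :
    U.card + 2 * ((min a' b' - max a b) + (min b' c' - max b c) + (min a' c' - max a c)) =
      (a' - a) + (b' - b) + (c' - c) + 4 * (min (min a' b') c' - max (max a b) c) := by
  have h1 : U.card = ∑ e ∈ Finset.range N, (if e ∈ U then 1 else 0) := by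
    rw [← Finset.card_filter]
    congr 1
    ext e
    simp only [Finset.mem_filter, Finset.mem_range]
    exact ⟨fun h => ⟨hUN e h, h⟩, fun h => h.2⟩
  rw [h1, ← sum_ch a a' N ha, ← sum_ch b b' N hb, ← sum_ch c c' N hc,
    ← sum_ch (max a b) (min a' b') N (by omega), ← sum_ch (max b c) (min b' c') N (by omega),
    ← sum_ch (max a c) (min a' c') N (by omega),
    ← sum_ch (max (max a b) c) (min (min a' b') c') N (by omega)]
  rw [← Finset.sum_add_distrib, ← Finset.sum_add_distrib, Finset.mul_sum, Finset.mul_sum,
    ← Finset.sum_add_distrib, ← Finset.sum_add_distrib, ← Finset.sum_add_distrib,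
    ← Finset.sum_add_distrib]
  refine Finset.sum_congr rfl fun e _ => ?_
  have h2 := hU e
  rw [ch_mul, ch_mul, ch_mul, ch_mul, ch_mul]
  have e1 := ch_le a a' e
  have e2 := ch_le b b' e
  have e3 := ch_le c c' e
  have e4 : (if e ∈ U then 1 else 0) ≤ 1 := by split_ifs <;> omega
  generalize (if e ∈ U then 1 else 0) = u at *
  generalize ch a a' e = x at *
  generalize ch b b' e = y at *
  generalize ch c c' e = z at *
  interval_cases x <;> interval_cases y <;> interval_cases z <;> omega

/-- the arithmetic for chords of the first and of the middle kind -/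
theorem arith_AM (K n u qa a a' qb b b' qc c c' : ℕ) (hK : 1 ≤ K) (hn : 2 * K + 3 ≤ n)
    (hA : (qa = 0 ∧ a = 0 ∧ a' = 0) ∨ (qa = 1 ∧ a' = a + (n - 1) ∧ 2 * a < K))
    (hM : (qb = 0 ∧ b = 0 ∧ b' = 0) ∨ (qb = 1 ∧ b' = b + (n - 1) ∧ 2 * b = K))
    (hJ : (qc = 0 ∧ c = 0 ∧ c' = 0) ∨ (qc = 1 ∧ c + 1 < c' ∧ c' < n + K ∧ c' ≠ c + (n - 1)))
    (hAU : qa = 1 → (ch a a' K + ch b b' K + ch c c' K) % 2 = 0)
    (hMU : qb = 1 → (ch a a' (K + 2) + ch b b' (K + 2) + ch c c' (K + 2)) % 2 = 0)
    (hcard : n = u + qa + qb + qc)
    (hu : u + 2 * ((min a' b' - max a b) + (min b' c' - max b c) + (min a' c' - max a c)) =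
      (a' - a) + (b' - b) + (c' - c) + 4 * (min (min a' b') c' - max (max a b) c)) : False := by
  rcases hA with ⟨h1, h2, h3⟩ | ⟨h1, h2, h3⟩ <;> rcases hM with ⟨h4, h5, h7⟩ | ⟨h4, h5, h7⟩ <;>
    rcases hJ with ⟨h8, h9, h10⟩ | ⟨h8, h9, h10, h11⟩ <;> subst h1 <;> subst h4 <;> subst h8
  · omega
  · omega
  · have := hMU rfl
    rw [show ch a a' (K + 2) = 0 from if_neg (by omega), show ch b b' (K + 2) = 1 from
      if_pos (by omega), show ch c c' (K + 2) = 0 from if_neg (by omega)] at this
    omega
  · have := hMU rfl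
    rw [show ch a a' (K + 2) = 0 from if_neg (by omega), show ch b b' (K + 2) = 1 from
      if_pos (by omega)] at this
    unfold ch at this
    split_ifs at this with h
    clear hAU hMU
    omega
  · have := hAU rfl
    rw [show ch a a' K = 1 from if_pos (by omega), show ch b b' K = 0 from
      if_neg (by omega), show ch c c' K = 0 from if_neg (by omega)] at this
    omega
  · have := hAU rfl
    rw [show ch a a' K = 1 from if_pos (by omega), show ch b b' K = 0 from
      if_neg (by omega)] at this
    unfold ch at this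
    split_ifs at this with h
    clear hAU hMU
    omega
  · clear hAU hMU
    omega
  · have h12 := hAU rfl
    have h13 := hMU rfl
    rw [show ch a a' K = 1 from if_pos (by omega), show ch b b' K = 1 from
      if_pos (by omega)] at h12
    rw [show ch a a' (K + 2) = 1 from if_pos (by omega), show ch b b' (K + 2) = 1 from
      if_pos (by omega)] at h13
    unfold ch at h12 h13
    split_ifs at h12 with h
    split_ifs at h13 with h'
    clear hAU hMU h12 h13
    have e1 : max a b = b := by omega
    have e2 : min a' b' = a' := by omega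
    rw [e1, e2] at hu
    clear e1 e2
    omega

/-- the arithmetic for chords of the middle and of the last kind -/
theorem arith_MB (K n u qa a a' qb b b' qc c c' : ℕ) (hK : 1 ≤ K) (hn : 2 * K + 3 ≤ n)
    (h6 : K % 2 = 0 → K + 6 ≤ n)
    (hM : (qa = 0 ∧ a = 0 ∧ a' = 0) ∨ (qa = 1 ∧ a' = a + (n - 1) ∧ 2 * a = K))
    (hB : (qb = 0 ∧ b = 0 ∧ b' = 0) ∨
      (qb = 1 ∧ b' = b + (n - 1) ∧ K < 2 * b ∧ b' < n + K))
    (hJ : (qc = 0 ∧ c = 0 ∧ c' = 0) ∨ (qc = 1 ∧ c + 1 < c' ∧ c' < n + K ∧ c' ≠ c + (n - 1)))
    (hMU : qa = 1 → (ch a a' (K + 2) + ch b b' (K + 2) + ch c c' (K + 2)) % 2 = 0)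
    (hBU : qb = 1 → (ch a a' (n - 2) + ch b b' (n - 2) + ch c c' (n - 2)) % 2 = 0)
    (hcard : n = u + qa + qb + qc)
    (hu : u + 2 * ((min a' b' - max a b) + (min b' c' - max b c) + (min a' c' - max a c)) =
      (a' - a) + (b' - b) + (c' - c) + 4 * (min (min a' b') c' - max (max a b) c)) : False := by
  rcases hM with ⟨h1, h2, h3⟩ | ⟨h1, h2, h3⟩ <;> rcases hB with ⟨h4, h5, h7⟩ | ⟨h4, h5, h7, h7'⟩ <;>
    rcases hJ with ⟨h8, h9, h10⟩ | ⟨h8, h9, h10, h11⟩ <;> subst h1 <;> subst h4 <;> subst h8
  · omega
  · omega
  · have := hBU rfl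
    rw [show ch a a' (n - 2) = 0 from if_neg (by omega), show ch b b' (n - 2) = 1 from
      if_pos (by omega), show ch c c' (n - 2) = 0 from if_neg (by omega)] at this
    omega
  · have := hBU rfl
    rw [show ch a a' (n - 2) = 0 from if_neg (by omega), show ch b b' (n - 2) = 1 from
      if_pos (by omega)] at this
    unfold ch at this
    split_ifs at this with h
    clear hBU hMU
    omega
  · have := hMU rfl
    rw [show ch a a' (K + 2) = 1 from if_pos (by omega), show ch b b' (K + 2) = 0 from
      if_neg (by omega), show ch c c' (K + 2) = 0 from if_neg (by omega)] at this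
    omega
  · have := hMU rfl
    rw [show ch a a' (K + 2) = 1 from if_pos (by omega), show ch b b' (K + 2) = 0 from
      if_neg (by omega)] at this
    unfold ch at this
    split_ifs at this with h
    clear hBU hMU
    omega
  · clear hBU hMU
    omega
  · have h12 := hMU rfl
    have h13 := hBU rfl
    rw [show ch a a' (K + 2) = 1 from if_pos (by omega), show ch b b' (K + 2) = 1 from
      if_pos (by omega)] at h12
    rw [show ch a a' (n - 2) = 1 from if_pos (by omega), show ch b b' (n - 2) = 1 from
      if_pos (by omega)] at h13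
    unfold ch at h12 h13
    split_ifs at h12 with h
    split_ifs at h13 with h'
    clear hBU hMU h12 h13
    have e1 : max a b = b := by omega
    have e2 : min a' b' = a' := by omega
    rw [e1, e2] at hu
    clear e1 e2
    have h14 : c' ≤ K + 2 ∨ (K + 3 ≤ c ∧ c' ≤ n - 2) ∨ n - 1 ≤ c := by omega
    rcases h14 with h14 | ⟨h14, h15⟩ | h14
    · rw [show min b' c' = c' by omega, show min a' c' = c' by omega] at hu
      rcases le_total c a with h16 | h16
      · rw [show max b c = b by omega, show max a c = a by omega] at hu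
        omega
      · rw [show max a c = c by omega] at hu
        rcases le_total c b with h17 | h17
        · rw [show max b c = b by omega] at hu
          omega
        · rw [show max b c = c by omega] at hu
          omega
    · rw [show min b' c' = c' by omega, show min a' c' = c' by omega, show max b c = c by omega,
        show max a c = c by omega] at hu
      omega
    · rw [show max b c = c by omega, show max a c = c by omega] at hu
      rcases le_total c' a' with h16 | h16
      · rw [show min b' c' = c' by omega, show min a' c' = c' by omega] at hu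
        omega
      · rw [show min a' c' = a' by omega] at hu
        rcases le_total c' b' with h17 | h17
        · rw [show min b' c' = c' by omega] at hu
          omega
        · rw [show min b' c' = b' by omega] at hu
          omega

end Pool.Agent.helper64.RC
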