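import Mathlib
import Pool.Agent.helper94.Rainbow
import Pool.Agent.helper64.RC.Direct
import Pool.Agent.helper64.RC.Arith

set_option autoImplicit false

/-!
# The sparse colouring: no rainbow `n`-cycle for `n < m ≤ (3n - 3) / 2`
-/

namespace Pool.Agent.helper64.RC

open Pool.Agent.helper94.Rainbow

/-- a closed sequence crosses from `P` to its complement an even number of times -/
theorem even_cross {n : ℕ} [NeZero n] {V : Type} (v : ZMod n → V) (P : V → Prop)
    [DecidablePred P] :
    (Finset.univ.filter (fun i => ¬ (P (v i) ↔ P (v (i + 1))))).card % 2 = 0 := by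
  classical
  set χ : ZMod n → ℕ := fun i => if P (v i) then 1 else 0 with hχ
  have h1 : ∑ i, χ (i + 1) = ∑ i, χ i := Equiv.sum_comp (Equiv.addRight (1 : ZMod n)) χ
  have h2 : (Finset.univ.filter (fun i => ¬ (P (v i) ↔ P (v (i + 1))))).card +
      2 * ∑ i, χ i * χ (i + 1) = ∑ i, χ i + ∑ i, χ (i + 1) := by
    rw [Finset.card_filter, Finset.mul_sum, ← Finset.sum_add_distrib, ← Finset.sum_add_distrib]
    refine Finset.sum_congr rfl fun i _ => ?_
    simp only [hχ]
    by_cases h3 : P (v i) <;> by_cases h4 : P (v (i + 1)) <;> simp [h3, h4]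
  rw [h1] at h2
  omega

/-- at most one index with property `R` -/
theorem slot {ι : Type} [Fintype ι] [DecidableEq ι] (R : ι → Prop) [DecidablePred R]
    (lo hi : ι → ℕ) (h : ∀ i j, R i → R j → i = j) :
    ∃ q x y : ℕ, ((q = 0 ∧ x = 0 ∧ y = 0 ∧ ∀ i, ¬ R i) ∨
        (q = 1 ∧ ∃ i, R i ∧ x = lo i ∧ y = hi i)) ∧
      (Finset.univ.filter R).card = q ∧
      ∀ e, (Finset.univ.filter (fun i => R i ∧ lo i ≤ e ∧ e < hi i)).card = ch x y e := by
  by_cases hex : ∃ i, R i
  · obtain ⟨i, hi'⟩ := hex
    refine ⟨1, lo i, hi i, Or.inr ⟨rfl, i, hi', rfl, rfl⟩, ?_, ?_⟩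
    · rw [Finset.card_eq_one]
      refine ⟨i, ?_⟩
      ext j
      simp only [Finset.mem_filter, Finset.mem_univ, true_and, Finset.mem_singleton]
      exact ⟨fun hj => h j i hj hi', fun hj => hj ▸ hi'⟩
    · intro e
      unfold ch
      split_ifs with h1
      · rw [Finset.card_eq_one]
        refine ⟨i, ?_⟩
        ext j
        simp only [Finset.mem_filter, Finset.mem_univ, true_and, Finset.mem_singleton]
        exact ⟨fun hj => h j i hj.1 hi', fun hj => by subst hj; exact ⟨hi', h1⟩⟩
      · rw [Finset.card_eq_zero, Finset.filter_eq_empty_iff]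
        rintro j - ⟨hj, h2⟩
        rw [h j i hj hi'] at h2
        exact h1 h2
  · push Not at hex
    refine ⟨0, 0, 0, Or.inl ⟨rfl, rfl, rfl, hex⟩, ?_, ?_⟩
    · rw [Finset.card_eq_zero, Finset.filter_eq_empty_iff]
      exact fun j _ => hex j
    · intro e
      unfold ch
      rw [if_neg (by omega), Finset.card_eq_zero, Finset.filter_eq_empty_iff]
      rintro j - ⟨hj, -⟩
      exact hex j hj

/-- the kind of an edge from `x` to `y > x` -/
def kind (K n x y : ℕ) : ℕ :=
  if y = x + 1 then 0
  else if y = x + (n - 1) then (if 2 * x < K then 1 else if 2 * x = K then 2 else 3) else 4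

/-- the colour of an edge from `x` to `y > x` -/
def colS (K n x y : ℕ) : ℕ :=
  if y = x + 1 then x
  else if y = x + (n - 1) then (if 2 * x < K then K else if 2 * x = K then K + 2 else n - 2)
  else n + K - 1

/-- the sparse colouring -/
def cS (K n : ℕ) : Sym2 (Fin (n + K)) → ℕ :=
  Sym2.lift ⟨fun x y => colS K n (min x.val y.val) (max x.val y.val), fun x y => by
    dsimp only
    rw [min_comm, max_comm]⟩

theorem cS_mk {K n : ℕ} (x y : Fin (n + K)) :
    cS K n s(x, y) = colS K n (min x.val y.val) (max x.val y.val) := rfl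

theorem cS_has {K n : ℕ} (hn : 3 ≤ n) (hK : 1 ≤ K) : HasRainbowCycle (cS K n) (n + K) := by
  apply hasRainbow_of_walk (by omega)
  have hm0 : 0 < n + K := by omega
  have e : ∀ k, k < n + K → cS K n s(walk hm0 k, walk hm0 (k + 1)) = k := by
    intro k hk
    rcases Nat.lt_or_ge (k + 1) (n + K) with h | h
    · rw [walk_small hm0 hk, walk_small hm0 h, cS_mk]
      dsimp only
      rw [min_eq_left (by omega), max_eq_right (by omega)]
      unfold colS
      rw [if_pos rfl]
    · rw [show k + 1 = 0 + (n + K) by omega, walk_per, walk_small hm0 hk, walk_small hm0 hm0,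
        cS_mk]
      dsimp only
      rw [min_eq_right (by omega), max_eq_left (by omega)]
      unfold colS
      rw [if_neg (by omega), if_neg (by omega)]
      omega
  intro i j hij hj he
  rw [e i (by omega), e j hj] at he
  omega

theorem cS_not {K n : ℕ} (hK : 1 ≤ K) (hn : 2 * K + 3 ≤ n) (h6 : K % 2 = 0 → K + 6 ≤ n) :
    ¬ HasRainbowCycle (cS K n) n := by
  classical
  rintro ⟨v, hv, hc⟩
  have : NeZero n := ⟨by omega⟩
  set lo : ZMod n → ℕ := fun i => min (v i).val (v (i + 1)).val with hlo
  set hi : ZMod n → ℕ := fun i => max (v i).val (v (i + 1)).val with hhi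
  have hone : ∀ i : ZMod n, i ≠ i + 1 := by
    intro i h
    have h1 : (1 : ZMod n) = 0 := by
      have := congrArg (fun x => x - i) h
      simpa using this.symm
    have h2 : ((1 : ℕ) : ZMod n) = 0 := by exact_mod_cast h1
    rw [ZMod.natCast_eq_zero_iff] at h2
    have := Nat.le_of_dvd (by norm_num) h2
    omega
  have hlt : ∀ i, lo i < hi i := by
    intro i
    have h1 : (v i).val ≠ (v (i + 1)).val := fun h => hone i (hv (Fin.ext h))
    simp only [hlo, hhi]
    omega
  have hhiN : ∀ i, hi i < n + K := by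
    intro i
    have h1 := (v i).isLt
    have h2 := (v (i + 1)).isLt
    simp only [hhi]
    omega
  have hcol : ∀ i j, colS K n (lo i) (hi i) = colS K n (lo j) (hi j) → i = j :=
    fun i j h => hc h
  have hcross : ∀ e, (Finset.univ.filter (fun i => lo i ≤ e ∧ e < hi i)).card % 2 = 0 := by
    intro e
    have h1 := even_cross v (fun u => u.val ≤ e)
    have h2 : (Finset.univ.filter (fun i => ¬ ((v i).val ≤ e ↔ (v (i + 1)).val ≤ e))) =
        Finset.univ.filter (fun i => lo i ≤ e ∧ e < hi i) := by
      ext i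
      simp only [Finset.mem_filter, Finset.mem_univ, true_and, hlo, hhi]
      omega
    rwa [h2] at h1
  set kd : ZMod n → ℕ := fun i => kind K n (lo i) (hi i) with hkd
  have hkd5 : ∀ i, kd i < 5 := by
    intro i
    simp only [hkd, kind]
    split_ifs <;> omega
  have hfib : ∀ (Q : ZMod n → Prop) [DecidablePred Q], (Finset.univ.filter Q).card =
      (Finset.univ.filter (fun i => kd i = 0 ∧ Q i)).card +
      (Finset.univ.filter (fun i => kd i = 1 ∧ Q i)).card +
      (Finset.univ.filter (fun i => kd i = 2 ∧ Q i)).card +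
      (Finset.univ.filter (fun i => kd i = 3 ∧ Q i)).card +
      (Finset.univ.filter (fun i => kd i = 4 ∧ Q i)).card := by
    intro Q _
    rw [Finset.card_eq_sum_card_fiberwise (f := kd) (t := Finset.range 5)
      (fun i _ => by simpa using hkd5 i)]
    simp only [Finset.sum_range_succ, Finset.sum_range_zero, zero_add, Finset.filter_filter,
      and_comm]
  -- kinds determine colours
  have hk0 : ∀ i, kd i = 0 → hi i = lo i + 1 := by
    intro i h
    simp only [hkd, kind] at h
    split_ifs at h with h1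
    exact h1
  have hk1 : ∀ i, kd i = 1 → hi i = lo i + (n - 1) ∧ 2 * lo i < K := by
    intro i h
    simp only [hkd, kind] at h
    split_ifs at h with h1 h2 h3 h4
    all_goals omega
  have hk2 : ∀ i, kd i = 2 → hi i = lo i + (n - 1) ∧ 2 * lo i = K := by
    intro i h
    simp only [hkd, kind] at h
    split_ifs at h with h1 h2 h3 h4
    all_goals omega
  have hk3 : ∀ i, kd i = 3 → hi i = lo i + (n - 1) ∧ K < 2 * lo i := by
    intro i h
    simp only [hkd, kind] at h
    split_ifs at h with h1 h2 h3 h4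
    all_goals omega
  have hk4 : ∀ i, kd i = 4 → hi i ≠ lo i + 1 ∧ hi i ≠ lo i + (n - 1) := by
    intro i h
    simp only [hkd, kind] at h
    split_ifs at h with h1 h2 h3 h4
    all_goals omega
  have c0 : ∀ i, kd i = 0 → colS K n (lo i) (hi i) = lo i := by
    intro i h
    unfold colS
    rw [if_pos (hk0 i h)]
  have c1 : ∀ i, kd i = 1 → colS K n (lo i) (hi i) = K := by
    intro i h
    obtain ⟨h1, h2⟩ := hk1 i h
    unfold colS
    rw [if_neg (by omega), if_pos h1, if_pos h2]
  have c2 : ∀ i, kd i = 2 → colS K n (lo i) (hi i) = K + 2 := by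
    intro i h
    obtain ⟨h1, h2⟩ := hk2 i h
    unfold colS
    rw [if_neg (by omega), if_pos h1, if_neg (by omega), if_pos h2]
  have c3 : ∀ i, kd i = 3 → colS K n (lo i) (hi i) = n - 2 := by
    intro i h
    obtain ⟨h1, h2⟩ := hk3 i h
    unfold colS
    rw [if_neg (by omega), if_pos h1, if_neg (by omega), if_neg (by omega)]
  have c4 : ∀ i, kd i = 4 → colS K n (lo i) (hi i) = n + K - 1 := by
    intro i h
    obtain ⟨h1, h2⟩ := hk4 i h
    unfold colS
    rw [if_neg h1, if_neg h2]
  obtain ⟨q1, x1, y1, hs1, hn1, he1⟩ := slot (fun i => kd i = 1) lo hi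
    (fun i j h1 h2 => hcol i j (by rw [c1 i h1, c1 j h2]))
  obtain ⟨q2, x2, y2, hs2, hn2, he2⟩ := slot (fun i => kd i = 2) lo hi
    (fun i j h1 h2 => hcol i j (by rw [c2 i h1, c2 j h2]))
  obtain ⟨q3, x3, y3, hs3, hn3, he3⟩ := slot (fun i => kd i = 3) lo hi
    (fun i j h1 h2 => hcol i j (by rw [c3 i h1, c3 j h2]))
  obtain ⟨q4, x4, y4, hs4, hn4, he4⟩ := slot (fun i => kd i = 4) lo hi
    (fun i j h1 h2 => hcol i j (by rw [c4 i h1, c4 j h2]))
  -- the set of used path edges
  set U : Finset ℕ := (Finset.univ.filter (fun i => kd i = 0)).image lo with hU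
  have hUcard : U.card = (Finset.univ.filter (fun i => kd i = 0)).card := by
    apply Finset.card_image_of_injOn
    intro i hi' j hj' hij
    simp only [Finset.coe_filter, Finset.mem_univ, true_and, Set.mem_ofPred_eq] at hi' hj'
    exact hcol i j (by rw [c0 i hi', c0 j hj', hij])
  have hcardn : n = U.card + q1 + q2 + q3 + q4 := by
    have h1 := hfib (fun _ => True)
    simp only [and_true, Finset.filter_true, Finset.card_univ, ZMod.card] at h1
    rw [hUcard, ← hn1, ← hn2, ← hn3, ← hn4]
    exact h1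
  have hUe : ∀ e, (Finset.univ.filter (fun i => kd i = 0 ∧ lo i ≤ e ∧ e < hi i)).card =
      (if e ∈ U then 1 else 0) := by
    intro e
    split_ifs with h
    · rw [hU, Finset.mem_image] at h
      obtain ⟨i, hi', hie⟩ := h
      rw [Finset.mem_filter] at hi'
      rw [Finset.card_eq_one]
      refine ⟨i, ?_⟩
      ext j
      simp only [Finset.mem_filter, Finset.mem_univ, true_and, Finset.mem_singleton]
      constructor
      · rintro ⟨h1, h2, h3⟩
        have := hk0 j h1
        exact hcol j i (by rw [c0 j h1, c0 i hi'.2]; omega)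
      · rintro rfl
        have := hk0 j hi'.2
        exact ⟨hi'.2, by omega, by omega⟩
    · rw [Finset.card_eq_zero, Finset.filter_eq_empty_iff]
      rintro j - ⟨h1, h2, h3⟩
      apply h
      rw [hU, Finset.mem_image]
      have := hk0 j h1
      exact ⟨j, by rw [Finset.mem_filter]; exact ⟨Finset.mem_univ _, h1⟩, by omega⟩
  have hpar : ∀ e, ((if e ∈ U then 1 else 0) + ch x1 y1 e + ch x2 y2 e + ch x3 y3 e +
      ch x4 y4 e) % 2 = 0 := by
    intro e
    rw [← hUe e, ← he1 e, ← he2 e, ← he3 e, ← he4 e, ← hfib (fun i => lo i ≤ e ∧ e < hi i)]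
    exact hcross e
  have hUlt : ∀ e ∈ U, e < n + K := by
    intro e he
    rw [hU, Finset.mem_image] at he
    obtain ⟨i, -, rfl⟩ := he
    exact (hlt i).trans (hhiN i)
  -- the colours of the chords are not in `U`
  have hnot : ∀ x, (∃ i, colS K n (lo i) (hi i) = x ∧ kd i ≠ 0) → x ∉ U := by
    rintro x ⟨i, h1, h2⟩ h3
    rw [hU, Finset.mem_image] at h3
    obtain ⟨j, hj, hjx⟩ := h3
    rw [Finset.mem_filter] at hj
    have := hcol i j (by rw [h1, c0 j hj.2, hjx])
    rw [this] at h2
    exact h2 hj.2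
  by_cases h13 : q1 = 1 ∧ q3 = 1
  · -- both a first and a last chord: the middle block of vertices is not entered
    obtain ⟨hq1, hq3⟩ := h13
    obtain ⟨i1, hi1, hx1, hy1⟩ : ∃ i, kd i = 1 ∧ x1 = lo i ∧ y1 = hi i := by
      rcases hs1 with h | h
      · omega
      · exact h.2
    obtain ⟨i3, hi3, hx3, hy3⟩ : ∃ i, kd i = 3 ∧ x3 = lo i ∧ y3 = hi i := by
      rcases hs3 with h | h
      · omega
      · exact h.2
    have hKU : K ∉ U := hnot K ⟨i1, c1 i1 hi1, by omega⟩
    have hnU : n - 2 ∉ U := hnot (n - 2) ⟨i3, c3 i3 hi3, by omega⟩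
    have hcr := even_cross v (fun u => K + 1 ≤ u.val ∧ u.val ≤ n - 2)
    have hin : ∀ i, (K + 1 ≤ (v i).val ∧ (v i).val ≤ n - 2 ↔
        K + 1 ≤ (v (i + 1)).val ∧ (v (i + 1)).val ≤ n - 2) ∨ kd i = 4 := by
      intro i
      by_contra hcon
      rw [not_or] at hcon
      obtain ⟨h1, h2⟩ := hcon
      have h3 := hkd5 i
      have h4 := hlt i
      have h5 := hhiN i
      have h6' : lo i = min (v i).val (v (i + 1)).val := rfl
      have h7 : hi i = max (v i).val (v (i + 1)).val := rfl
      have h8 : kd i = 0 → lo i ∈ U := fun h => by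
        rw [hU, Finset.mem_image]
        exact ⟨i, by rw [Finset.mem_filter]; exact ⟨Finset.mem_univ _, h⟩, rfl⟩
      have h9 : kd i = 0 ∨ kd i = 1 ∨ kd i = 2 ∨ kd i = 3 := by omega
      rcases h9 with h | h | h | h
      · have h10 := hk0 i h
        have h11 : lo i = K ∨ lo i = n - 2 := by
          by_contra h12
          exact h1 (by omega)
        rcases h11 with h11 | h11
        · exact hKU (h11 ▸ h8 h)
        · exact hnU (h11 ▸ h8 h)
      · have h10 := hk1 i h
        exact h1 (by omega)
      · have h10 := hk2 i h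
        exact h1 (by omega)
      · have h10 := hk3 i h
        exact h1 (by omega)
    have hq4 : q4 ≤ 1 := by
      rcases hs4 with h | h <;> omega
    have hle : (Finset.univ.filter (fun i => ¬ (K + 1 ≤ (v i).val ∧ (v i).val ≤ n - 2 ↔
        K + 1 ≤ (v (i + 1)).val ∧ (v (i + 1)).val ≤ n - 2))).card ≤ q4 := by
      rw [← hn4]
      apply Finset.card_le_card
      intro i h
      rw [Finset.mem_filter] at h ⊢
      exact ⟨h.1, (hin i).resolve_left h.2⟩
    have h0 : (Finset.univ.filter (fun i => ¬ (K + 1 ≤ (v i).val ∧ (v i).val ≤ n - 2 ↔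
        K + 1 ≤ (v (i + 1)).val ∧ (v (i + 1)).val ≤ n - 2))).card = 0 := by
      omega
    rw [Finset.card_eq_zero, Finset.filter_eq_empty_iff] at h0
    have hstep : ∀ i, (K + 1 ≤ (v i).val ∧ (v i).val ≤ n - 2 ↔
        K + 1 ≤ (v (i + 1)).val ∧ (v (i + 1)).val ≤ n - 2) := by
      intro i
      by_contra h
      exact h0 (Finset.mem_univ i) h
    have hout1 : ¬ (K + 1 ≤ (v i1).val ∧ (v i1).val ≤ n - 2) := by
      have h10 := hk1 i1 hi1
      have h6' : lo i1 = min (v i1).val (v (i1 + 1)).val := rfl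
      have h7 : hi i1 = max (v i1).val (v (i1 + 1)).val := rfl
      omega
    have hout : ∀ k : ℕ, ¬ (K + 1 ≤ (v (i1 + k)).val ∧ (v (i1 + k)).val ≤ n - 2) := by
      intro k
      induction k with
      | zero => simpa using hout1
      | succ k ih =>
        rw [show i1 + ((k + 1 : ℕ) : ZMod n) = i1 + k + 1 by push_cast; ring]
        rwa [← hstep (i1 + k)]
    have hall : ∀ i, ¬ (K + 1 ≤ (v i).val ∧ (v i).val ≤ n - 2) := by
      intro i
      have h1 := hout (i - i1).val
      rwa [ZMod.natCast_zmod_val, show i1 + (i - i1) = i by ring] at h1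
    have hg : ∀ i, (if (v i).val ≤ K then (v i).val else (v i).val - (n - 1) + (K + 1)) <
        2 * K + 2 := by
      intro i
      have h1 := hall i
      have h2 := (v i).isLt
      split_ifs <;> omega
    have hinj : Function.Injective (fun i => (⟨_, hg i⟩ : Fin (2 * K + 2))) := by
      intro i j hij
      simp only [Fin.mk.injEq] at hij
      have h1 := hall i
      have h2 := hall j
      apply hv
      apply Fin.ext
      split_ifs at hij <;> omega
    have hcd := Fintype.card_le_of_injective _ hinj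
    rw [ZMod.card, Fintype.card_fin] at hcd
    omega
  · have hch0 : ∀ e, ch 0 0 e = 0 := fun e => if_neg (by omega)
    have hJ : (q4 = 0 ∧ x4 = 0 ∧ y4 = 0) ∨
        (q4 = 1 ∧ x4 + 1 < y4 ∧ y4 < n + K ∧ y4 ≠ x4 + (n - 1)) := by
      rcases hs4 with h | ⟨h, i, h1, h2, h3⟩
      · left; exact ⟨h.1, h.2.1, h.2.2.1⟩
      · right
        have h4 := hk4 i h1
        have h5 := hlt i
        have h6' := hhiN i
        subst h2 h3
        exact ⟨h, by omega, by omega, by omega⟩
    have hM : (q2 = 0 ∧ x2 = 0 ∧ y2 = 0) ∨ (q2 = 1 ∧ y2 = x2 + (n - 1) ∧ 2 * x2 = K) := by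
      rcases hs2 with h | ⟨h, i, h1, h2, h3⟩
      · left; exact ⟨h.1, h.2.1, h.2.2.1⟩
      · right
        have h4 := hk2 i h1
        subst h2 h3
        exact ⟨h, h4.1, h4.2⟩
    have hMU : q2 = 1 → K + 2 ∉ U := by
      intro h
      rcases hs2 with h' | ⟨-, i, h1, -, -⟩
      · omega
      · exact hnot _ ⟨i, c2 i h1, by omega⟩
    by_cases hq3 : q3 = 0
    · obtain ⟨hx3, hy3⟩ : x3 = 0 ∧ y3 = 0 := by
        rcases hs3 with h | h
        · exact ⟨h.2.1, h.2.2.1⟩
        · omega
      subst hx3 hy3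
      have hA : (q1 = 0 ∧ x1 = 0 ∧ y1 = 0) ∨ (q1 = 1 ∧ y1 = x1 + (n - 1) ∧ 2 * x1 < K) := by
        rcases hs1 with h | ⟨h, i, h1, h2, h3⟩
        · left; exact ⟨h.1, h.2.1, h.2.2.1⟩
        · right
          have h4 := hk1 i h1
          subst h2 h3
          exact ⟨h, h4.1, h4.2⟩
      have hAU : q1 = 1 → K ∉ U := by
        intro h
        rcases hs1 with h' | ⟨-, i, h1, -, -⟩
        · omega
        · exact hnot _ ⟨i, c1 i h1, by omega⟩
      have hpar' : ∀ e, ((if e ∈ U then 1 else 0) + ch x1 y1 e + ch x2 y2 e + ch x4 y4 e) % 2 =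
          0 := by
        intro e
        have := hpar e
        rw [hch0] at this
        omega
      have hf := three U (n + K) x1 y1 x2 y2 x4 y4 hUlt
        (by rcases hA with h | h <;> omega) (by rcases hM with h | h <;> omega)
        (by rcases hJ with h | h <;> omega) hpar'
      refine arith_AM K n U.card q1 x1 y1 q2 x2 y2 q4 x4 y4 hK hn hA hM hJ ?_ ?_ (by omega) hf
      · intro h
        have := hpar' K
        rw [if_neg (hAU h)] at this
        omega
      · intro h
        have := hpar' (K + 2)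
        rw [if_neg (hMU h)] at this
        omega
    · have hq1 : q1 = 0 := by
        rcases hs1 with h | h
        · exact h.1
        · rcases hs3 with h' | h'
          · exact absurd h'.1 hq3
          · exact absurd ⟨h.1, h'.1⟩ h13
      obtain ⟨hx1, hy1⟩ : x1 = 0 ∧ y1 = 0 := by
        rcases hs1 with h | h
        · exact ⟨h.2.1, h.2.2.1⟩
        · omega
      subst hx1 hy1
      have hB : (q3 = 0 ∧ x3 = 0 ∧ y3 = 0) ∨
          (q3 = 1 ∧ y3 = x3 + (n - 1) ∧ K < 2 * x3 ∧ y3 < n + K) := by
        rcases hs3 with h | ⟨h, i, h1, h2, h3⟩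
        · left; exact ⟨h.1, h.2.1, h.2.2.1⟩
        · right
          have h4 := hk3 i h1
          have h5 := hhiN i
          subst h2 h3
          exact ⟨h, h4.1, h4.2, h5⟩
      have hBU : q3 = 1 → n - 2 ∉ U := by
        intro h
        rcases hs3 with h' | ⟨-, i, h1, -, -⟩
        · omega
        · exact hnot _ ⟨i, c3 i h1, by omega⟩
      have hpar' : ∀ e, ((if e ∈ U then 1 else 0) + ch x2 y2 e + ch x3 y3 e + ch x4 y4 e) % 2 =
          0 := by
        intro e
        have := hpar e
        rw [hch0] at this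
        omega
      have hf := three U (n + K) x2 y2 x3 y3 x4 y4 hUlt
        (by rcases hM with h | h <;> omega) (by rcases hB with h | h <;> omega)
        (by rcases hJ with h | h <;> omega) hpar'
      refine arith_MB K n U.card q2 x2 y2 q3 x3 y3 q4 x4 y4 hK hn h6 hM hB hJ ?_ ?_ (by omega) hf
      · intro h
        have := hpar' (K + 2)
        rw [if_neg (hMU h)] at this
        omega
      · intro h
        have := hpar' (n - 2)
        rw [if_neg (hBU h)] at this
        omega

/-- for `n < m ≤ (3n - 3) / 2` and `(m, n) ≠ (9, 7)`, `m` does not imply `n` -/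
theorem not_implies_sparse {m n : ℕ} (h3 : 3 ≤ n) (hm : n < m) (hmn : 2 * m + 3 ≤ 3 * n)
    (h97 : (m, n) ≠ (9, 7)) : ¬ Implies m n := by
  obtain ⟨K, rfl⟩ : ∃ K, m = n + K := ⟨m - n, by omega⟩
  intro h
  refine cS_not (K := K) (by omega) (by omega) ?_ (h _ _ (cS K n) (cS_has h3 (by omega)))
  intro hK
  by_contra hcon
  apply h97
  ext <;> simp <;> omega

end Pool.Agent.helper64.RC
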